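import Pool.Agent.V11320.HoroVA6

/-!
# Finite orbits of horofunctions of virtually abelian groups

Every infinite finitely generated virtually abelian group has, for every finite symmetric generating
set `S`, a horofunction of the word metric of `S` with a finite orbit.

Proof. Let `A` be abelian of finite index `q`. A walk which meets a right coset `A p` twice contains a
loop, whose displacement `p ℓ p⁻¹ ∈ A` depends only on the coset and the label `ℓ`; loops can be
removed and can be inserted wherever their coset is visited. Let `φ : A → ℝ` be an extreme point of the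
compact convex set of homomorphisms with `φ(displacement) ≤ length` for all loops of length `≤ q`; the
displacements of the loops with equality (critical loops) then span. Put
`x_n = ∑ n ^ i • (critical displacement i)` and take the limit `f` of `b_{x_n}` along an ultrafilter.
For `y` fixed the set `V` of cosets visited by a geodesic from `y` to `x_n` is eventually constant and
`x_n ∈ w + (critical loops based in V)`. By Dickson's lemma and since `x_n` lies on a moment curve,
the set `Γ` of all displacements which are critical combinations for all such `V` generates a subgroup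
of finite index, and `f(a⁻¹ y) ≤ f(y) + φ(a)` for `a ∈ Γ`. The limit of the translates of `f` along
the directed monoid `Γ` is a horofunction with finite orbit.
-/

set_option autoImplicit false
open Filter Topology

namespace Pool.Agent.Results.MP_3614fc_al.VirtuallyAbelian

open Pool.Agent.V11320.HoroVA

/-- Every infinite finitely generated virtually abelian group has, for every finite symmetric
generating set `S`, a horofunction of the word metric of `S` whose orbit is finite. -/
theorem result :
    ∀ (G : Type) [Group G], Group.FG G → Infinite G →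
      (∃ H : Subgroup G, H.FiniteIndex ∧ ∀ a ∈ H, ∀ b ∈ H, a * b = b * a) →
      ∀ S : Finset G, (∀ s ∈ S, s⁻¹ ∈ S) → Subgroup.closure (S : Set G) = ⊤ →
        ∃ f : G → ℝ,
          (∃ x : ℕ → G,
            Tendsto (fun n : ℕ => ((sInf {m : ℕ | ∃ l : List G, l.length = m ∧
                (∀ s ∈ l, s ∈ S) ∧ l.prod = (x n)⁻¹} : ℕ) : ℝ)) atTop atTop ∧
            ∀ y : G, Tendsto (fun n : ℕ =>
                ((sInf {m : ℕ | ∃ l : List G, l.length = m ∧
                  (∀ s ∈ l, s ∈ S) ∧ l.prod = (x n)⁻¹ * y} : ℕ) : ℝ) -
                ((sInf {m : ℕ | ∃ l : List G, l.length = m ∧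
                  (∀ s ∈ l, s ∈ S) ∧ l.prod = (x n)⁻¹} : ℕ) : ℝ))
              atTop (nhds (f y))) ∧
          (Set.range (fun g : G => fun y : G => f (g⁻¹ * y) - f g⁻¹)).Finite := by
  classical
  intro G _ hG hInf ⟨H, hFI, hcomm⟩ S hS hgen
  letI : CommGroup ↥H := { (inferInstance : Group ↥H) with
    mul_comm := fun a b => Subtype.ext (hcomm a.1 a.2 b.1 b.2) }
  have hfinQ : Finite (G ⧸ H) := Subgroup.finite_quotient_of_finiteIndex
  letI : Fintype (G ⧸ H) := Fintype.ofFinite _
  let D : Dat G (Additive ↥H) (G ⧸ H) :=
    { S := S
      T := fun a => (a.toMul : G)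
      q := fun p => (QuotientGroup.mk p⁻¹ : G ⧸ H)
      sym := hS
      gen := hgen
      Tadd := fun a b => rfl
      Tinj := fun a b h => Subtype.ext h
      hq := by
        intro p p'
        rw [QuotientGroup.eq, inv_inv]
        constructor
        · intro h
          refine ⟨Additive.ofMul (⟨p' * p⁻¹, ?_⟩ : ↥H), ?_⟩
          · have := H.inv_mem h
            simpa using this
          · simp
        · rintro ⟨a, rfl⟩
          have := H.inv_mem a.toMul.2
          simpa [mul_assoc] using this }
  have hFG : AddGroup.FG (Additive ↥H) := by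
    haveI := hG
    have h1 : Group.FG ↥H := inferInstance
    have h2 : AddGroup.FG (Additive ↥H) := GroupFG.iff_add_fg.1 h1
    exact h2
  have hInfH : Infinite (Additive ↥H) := by
    have : Infinite ↥H := by
      by_contra hfin
      rw [not_infinite_iff_finite] at hfin
      have : Finite G := Finite.of_equiv _ (Subgroup.groupEquivQuotientProdSubgroup (s := H)).symm
      exact not_finite G
    exact this
  obtain ⟨φ, hφ, hext⟩ := D.exists_ext
  obtain ⟨fs, h1, h2⟩ := Dat.main (D := D) (φ := φ) ⟨hFG, hInfH, hφ, hext⟩
  refine ⟨fs, ?_, h2⟩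
  have hx : ∀ n : ℕ, ∃ x : G, n ≤ wl D.S x ∧ ∀ y ∈ (D.ball_finite n).toFinset,
      |((wl D.S (y⁻¹ * x) : ℝ) - wl D.S x) - fs y| < 1 / ((n : ℝ) + 1) := fun n =>
    h1 _ _ n (by positivity)
  choose x hx1 hx2 using hx
  have e1 : ∀ g : G, sInf {m : ℕ | ∃ l : List G, l.length = m ∧
      (∀ s ∈ l, s ∈ S) ∧ l.prod = g} = wl D.S g := fun g => rfl
  refine ⟨x, ?_, ?_⟩
  · simp only [e1, D.wl_inv]
    refine tendsto_atTop_mono (fun n => ?_) tendsto_natCast_atTop_atTop
    exact_mod_cast hx1 n
  · intro y
    simp only [e1, D.wl_inv]
    have e2 : ∀ n, wl D.S ((x n)⁻¹ * y) = wl D.S (y⁻¹ * x n) := by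
      intro n
      rw [← D.wl_inv]; congr 1; group
    simp only [e2]
    rw [tendsto_iff_dist_tendsto_zero]
    refine squeeze_zero' (Filter.Eventually.of_forall (fun n => dist_nonneg)) ?_
      tendsto_one_div_add_atTop_nhds_zero_nat
    filter_upwards [eventually_ge_atTop (wl D.S y)] with n hn
    rw [Real.dist_eq]
    exact (hx2 n y (by simpa using hn)).le

end Pool.Agent.Results.MP_3614fc_al.VirtuallyAbelian
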